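import Pool.Agent.MP_993212_an.H46.Spec

/-! The trace radical is nilpotent and has bounded generators. -/

namespace Pool.Agent.MP_993212_an.H95

open Matrix H46

section Nil

variable {ι : Type} [Fintype ι] [DecidableEq ι]

lemma nilp_of_trace (A : Subalgebra ℚ (Matrix ι ι ℚ)) (z : Matrix ι ι ℚ) (hz : z ∈ A)
    (h : ∀ y ∈ A, trace (z * y) = 0) : IsNilpotent z := by
  let B := Algebra.adjoin ℚ {z}
  have hBA : B ≤ A := Algebra.adjoin_le (by simpa using hz)
  have : IsArtinianRing B := IsArtinianRing.of_finite ℚ B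
  let x : B := ⟨z, Algebra.self_mem_adjoin_singleton ℚ z⟩
  obtain ⟨n, y, hy⟩ := IsArtinian.exists_pow_succ_smul_dvd x (1 : B)
  have hy' : x ^ n * (x * y) = x ^ n := by
    rw [smul_eq_mul, smul_eq_mul, mul_one, Nat.succ_eq_add_one, pow_succ] at hy
    rw [← mul_assoc, hy]
  have hk : ∀ k, x ^ n * (x * y) ^ k = x ^ n := by
    intro k
    induction k with
    | zero => simp
    | succ k ih => rw [pow_succ, ← mul_assoc, ih, hy']
  have he : (x * y) ^ (n + 1) * (x * y) ^ (n + 1) = (x * y) ^ (n + 1) := by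
    have h1 : (x * y) ^ (n + 1) = x ^ n * (x * y ^ (n + 1)) := by ring
    calc (x * y) ^ (n + 1) * (x * y) ^ (n + 1)
        = x ^ n * (x * y) ^ (n + 1) * (x * y ^ (n + 1)) := by ring
      _ = (x * y) ^ (n + 1) := by rw [hk, h1]
  let e : Matrix ι ι ℚ := ((x * y) ^ (n + 1) : B)
  have he' : IsIdempotentElem (Matrix.toLin' e) := by
    have : e * e = e := congrArg Subtype.val he
    rw [IsIdempotentElem, Module.End.mul_eq_comp, ← Matrix.toLin'_mul, this]
  have ht : trace e = 0 := by
    have h1 : (x * y) ^ (n + 1) = x * (y * (x * y) ^ n) := by ring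
    have h2 : e = z * ((y * (x * y) ^ n : B) : Matrix ι ι ℚ) := congrArg Subtype.val h1
    rw [h2]
    exact h _ (hBA (y * (x * y) ^ n).2)
  have h0 : e = 0 := by
    have := (LinearMap.IsIdempotentElem.trace_eq_zero_iff he').1 (by
      rw [Matrix.trace_toLin'_eq, ht])
    simpa using this
  have h1 : (x * y) ^ (n + 1) = 0 := Subtype.ext h0
  have h2 := hk (n + 1)
  rw [h1, mul_zero] at h2
  exact ⟨n, (congrArg Subtype.val h2).symm⟩

lemma mem_jac (A : Subalgebra ℚ (Matrix ι ι ℚ)) (z : A)
    (h : ∀ y ∈ A, trace ((z : Matrix ι ι ℚ) * y) = 0) : z ∈ Ring.jacobson A := by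
  rw [← Ideal.jacobson_bot, Ideal.mem_jacobson_iff]
  intro y
  obtain ⟨n, hn⟩ := nilp_of_trace A ((y * z : A) : Matrix ι ι ℚ) (y * z).2 fun w hw => by
    rw [MulMemClass.coe_mul, mul_assoc, trace_mul_comm, mul_assoc]
    exact h _ (A.mul_mem hw y.2)
  have hn' : IsNilpotent (y * z) := ⟨n, Subtype.ext hn⟩
  obtain ⟨u, hu⟩ := hn'.isUnit_one_add
  refine ⟨↑u⁻¹, ?_⟩
  rw [Ideal.mem_bot, sub_eq_zero, mul_assoc, add_comm, ← mul_one_add, ← hu, Units.inv_mul]

lemma prod_jac (A : Subalgebra ℚ (Matrix ι ι ℚ)) (l : List A) (hl : l.length = Fintype.card ι)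
    (h : ∀ x ∈ l, x ∈ Ring.jacobson A) : l.prod = 0 := by
  let N : ℕ → Submodule A (ι → ℚ) := fun k => (fun M => Ring.jacobson A • M)^[k] ⊤
  have hN : ∀ k, N (k + 1) = Ring.jacobson A • N k := fun k => Function.iterate_succ_apply' _ _ _
  have : IsNoetherian A (ι → ℚ) := isNoetherian_of_tower ℚ inferInstance
  have hr : ∀ k, Module.finrank ℚ ((N k).restrictScalars ℚ) ≤ Fintype.card ι - k := by
    intro k
    induction k with
    | zero => exact (Submodule.finrank_le _).trans (by simp)
    | succ k ih =>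
      by_cases hk : N k = ⊥
      · rw [hN, hk, Submodule.smul_bot, Submodule.restrictScalars_bot, finrank_bot]
        exact Nat.zero_le _
      · have h1 := Submodule.FG.jacobson_smul_lt hk (IsNoetherian.noetherian _)
        rw [← hN] at h1
        have h2 : (N (k + 1)).restrictScalars ℚ < (N k).restrictScalars ℚ :=
          lt_of_le_of_ne h1.le fun h' => h1.ne (Submodule.restrictScalars_injective ℚ _ _ h')
        have := Submodule.finrank_lt_finrank_of_lt h2
        omega
  have hm : ∀ l : List A, (∀ x ∈ l, x ∈ Ring.jacobson A) → ∀ v, l.prod • v ∈ N l.length := by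
    intro l
    induction l with
    | nil => intro _ v; trivial
    | cons a l ih =>
      intro h v
      rw [List.length_cons, hN, List.prod_cons, mul_smul]
      exact Submodule.smul_mem_smul (h a (by simp)) (ih (fun x hx => h x (by simp [hx])) v)
  have h0 : (N l.length).restrictScalars ℚ = ⊥ := by
    have := hr l.length
    rw [hl, Nat.sub_self, Nat.le_zero, Submodule.finrank_eq_zero] at this
    rwa [hl]
  apply Subtype.ext
  rw [Matrix.ext_iff_smul]
  intro v
  have : l.prod • v ∈ (N l.length).restrictScalars ℚ := hm l h v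
  rw [h0, Submodule.mem_bot] at this
  exact this.trans (zero_smul (Matrix ι ι ℚ) v).symm

end Nil

theorem nil : NIL := by
  intro ι _ _ L θ hθ l hl hJ
  let ψ : L →+* Matrix ι ι ℚ := (Int.castRingHom ℚ).mapMatrix.comp L.subtype
  have hψ : Function.Injective ψ := by
    intro x y hxy
    ext i j
    simpa [ψ] using congrFun (congrFun hxy i) j
  have htr : ∀ x : L, trace (ψ x) = ((trace (x : Matrix ι ι ℤ) : ℤ) : ℚ) := by
    intro x
    simp [ψ, trace]
  let A := Algebra.adjoin ℚ (MonoidHom.mrange ψ : Set (Matrix ι ι ℚ))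
  have hA : ∀ x, ψ x ∈ A := fun x => Algebra.subset_adjoin ⟨x, rfl⟩
  let χ : L →+* A := ψ.codRestrict A hA
  have hc : ∀ x : L, Commute θ x := hθ
  have hp : ∀ l : List L, θ ^ (Fintype.card ι * l.length) * l.prod
      = (l.map fun x => θ ^ Fintype.card ι * x).prod := by
    intro l
    induction l with
    | nil => simp
    | cons a l ih =>
      rw [List.map_cons, List.prod_cons, List.prod_cons, ← ih, List.length_cons, mul_add, mul_one,
        add_comm, pow_add, mul_assoc, mul_assoc, ← mul_assoc _ a, ((hc a).pow_left _).eq,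
        mul_assoc]
  have hj : ∀ x, Jr θ x → χ (θ ^ Fintype.card ι * x) ∈ Ring.jacobson A := by
    intro x hx
    refine mem_jac A _ fun y hy => ?_
    have hy' : y ∈ Subalgebra.toSubmodule A := hy
    rw [Algebra.adjoin_eq_span, Submonoid.closure_eq] at hy'
    clear hy
    induction hy' using Submodule.span_induction with
    | mem y hy =>
      obtain ⟨y, rfl⟩ := hy
      change trace (ψ (θ ^ Fintype.card ι * x) * ψ y) = 0
      rw [← map_mul, htr, mul_assoc, ((hc _).pow_left _).eq, hx y, Int.cast_zero]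
    | zero => simp
    | add y y' _ _ h1 h2 => rw [mul_add, trace_add, h1, h2, add_zero]
    | smul r y _ h1 => rw [Matrix.mul_smul, trace_smul, h1, smul_zero]
  have h0 := prod_jac A ((l.map fun x => θ ^ Fintype.card ι * x).map χ) (by simpa using hl) (by
    intro x hx
    simp only [List.mem_map] at hx
    obtain ⟨_, ⟨x, hx, rfl⟩, rfl⟩ := hx
    exact hj x (hJ x hx))
  rw [← map_list_prod, ← hp, hl] at h0
  apply hψ
  rw [map_zero]
  exact congrArg Subtype.val h0

lemma natAbs_trace_le {ι : Type} [Fintype ι] (M : Matrix ι ι ℤ) : (trace M).natAbs ≤ sz M := by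
  refine (Int.natAbs_sum_le _ _).trans (Finset.sum_le_sum fun i _ => ?_)
  exact Finset.single_le_sum (f := fun j => (M i j).natAbs) (fun _ _ => Nat.zero_le _)
    (Finset.mem_univ i)

theorem jg (hK : KER) : JG := by
  obtain ⟨F, hF, hK⟩ := hK
  let c : ℕ → ℕ := fun N => N * N * (N * (N + 1) ^ N + (N + 1) ^ N) + (N * N + N * N)
  let G : ℕ → ℕ := fun N => (N + N * N) + (N + N * N) * (N * c N)
  have hc : PB c := ((PB.id.mul PB.id).mul ((PB.id.mul (PB.id.pow PB.id)).add
    (PB.id.pow PB.id))).add ((PB.id.mul PB.id).add (PB.id.mul PB.id))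
  have hG : PB G := (PB.id.add (PB.id.mul PB.id)).add
    ((PB.id.add (PB.id.mul PB.id)).mul (PB.id.mul hc))
  refine ⟨fun N => F (G N) + F (G N) * N, (hF.comp hG).add ((hF.comp hG).mul PB.id), ?_⟩
  intro ι _ _ L θ p s a N hd hs ha hθ hp hsp
  let S : Matrix (Fin s ⊕ ι × ι) (Fin s) ℤ := fun r i => Sum.elim
    (fun j => trace ((a i * a j * θ ^ Fintype.card ι : L) : Matrix ι ι ℤ))
    (fun uv => ((a i * p - p * a i : L) : Matrix ι ι ℤ) uv.1 uv.2) r
  have hcard : Fintype.card (Fin s ⊕ ι × ι) ≤ N + N * N := by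
    simp only [Fintype.card_sum, Fintype.card_fin, Fintype.card_prod]
    exact Nat.add_le_add hs (Nat.mul_le_mul hd hd)
  have hent : ∀ r i, (S r i).natAbs ≤ c N := by
    rintro (j | uv) i
    · refine le_trans ?_ (Nat.le_add_right _ _)
      refine (natAbs_trace_le _).trans ?_
      have h1 : sz (θ : Matrix ι ι ℤ) ^ Fintype.card ι ≤ (N + 1) ^ N :=
        (Nat.pow_le_pow_left (hθ.trans (Nat.le_succ N)) _).trans
          (Nat.pow_le_pow_right (Nat.succ_pos N) hd)
      push_cast
      refine (sz_mul _ _).trans (Nat.mul_le_mul ((sz_mul _ _).trans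
        (Nat.mul_le_mul (ha i) (ha j))) ((sz_pow _ _).trans ?_))
      exact Nat.add_le_add (Nat.mul_le_mul hd h1) h1
    · refine le_trans ?_ (Nat.le_add_left _ _)
      refine (le_sz ((a i * p - p * a i : L) : Matrix ι ι ℤ) uv.1 uv.2).trans ?_
      push_cast
      exact (sz_sub _ _).trans (Nat.add_le_add ((sz_mul _ _).trans (Nat.mul_le_mul (ha i) hp))
        ((sz_mul _ _).trans (Nat.mul_le_mul hp (ha i))))
  obtain ⟨t, K, ht, hv, h0, hgen⟩ := hK (Fin s ⊕ ι × ι) (Fin s) S (G N)
    (hcard.trans (Nat.le_add_right _ _))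
    (by
      rw [Fintype.card_fin]
      exact hs.trans ((Nat.le_add_right _ _).trans (Nat.le_add_right _ _)))
    ((sz_le_of hent).trans ((Nat.mul_le_mul hcard (Nat.mul_le_mul_right _
      (by rw [Fintype.card_fin]; exact hs))).trans (Nat.le_add_left _ _)))
  let Φ := Fintype.linearCombination ℤ a
  have hΦ : ∀ v, Φ v = ∑ i, v i • a i := fun v => Fintype.linearCombination_apply ℤ a v
  have key : ∀ v, S *ᵥ v = 0 ↔ Jr θ (Φ v) ∧ Φ v * p = p * Φ v := by
    intro v
    have e1 : ∀ j, (S *ᵥ v) (Sum.inl j)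
        = trace ((Φ v * a j * θ ^ Fintype.card ι : L) : Matrix ι ι ℤ) := by
      intro j
      rw [hΦ, Finset.sum_mul, Finset.sum_mul, AddSubmonoidClass.coe_finsetSum, trace_sum]
      change ∑ i, S (Sum.inl j) i * v i = _
      refine Finset.sum_congr rfl fun i _ => ?_
      rw [smul_mul_assoc, smul_mul_assoc, AddSubgroupClass.coe_zsmul, trace_smul, smul_eq_mul,
        mul_comm]
      rfl
    have e2 : ∀ u w, (S *ᵥ v) (Sum.inr (u, w))
        = ((Φ v * p - p * Φ v : L) : Matrix ι ι ℤ) u w := by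
      intro u w
      rw [hΦ, Finset.sum_mul, Finset.mul_sum, ← Finset.sum_sub_distrib,
        AddSubmonoidClass.coe_finsetSum, Matrix.sum_apply]
      change ∑ i, S (Sum.inr (u, w)) i * v i = _
      refine Finset.sum_congr rfl fun i _ => ?_
      rw [smul_mul_assoc, mul_smul_comm, ← smul_sub, AddSubgroupClass.coe_zsmul, Matrix.smul_apply,
        smul_eq_mul, mul_comm]
      rfl
    constructor
    · intro h
      refine ⟨fun y => ?_, ?_⟩
      · induction hsp y using Submodule.span_induction with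
        | mem y hy =>
          obtain ⟨j, rfl⟩ := hy
          rw [← e1, h]
          rfl
        | zero => simp
        | add y y' _ _ h1 h2 =>
          rw [mul_add, add_mul, AddMemClass.coe_add, trace_add, h1, h2, add_zero]
        | smul r y _ h1 =>
          rw [mul_smul_comm, smul_mul_assoc, AddSubgroupClass.coe_zsmul, trace_smul, h1, smul_zero]
      · rw [← sub_eq_zero]
        ext u w
        rw [← e2, h]
        rfl
    · rintro ⟨h1, h2⟩
      ext (j | ⟨u, w⟩)
      · rw [e1, h1]
        rfl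
      · rw [e2, h2, sub_self]
        rfl
  refine ⟨t, fun j => Φ (K j), ht.trans (Nat.le_add_right _ _), fun j => ?_, fun x => ?_⟩
  · refine le_trans ?_ (Nat.le_add_left _ _)
    simp only [hΦ]
    push_cast
    refine (sz_sum _ _).trans ?_
    simp only [sz_smul]
    refine (Finset.sum_le_sum fun i _ => Nat.mul_le_mul_left _ (ha i)).trans ?_
    rw [← Finset.sum_mul]
    exact Nat.mul_le_mul_right _ (hv j)
  · have hm : Submodule.span ℤ (Set.range fun j => Φ (K j))
        = (Submodule.span ℤ (Set.range K)).map Φ := by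
      rw [Submodule.map_span, ← Set.range_comp]
      rfl
    rw [hm]
    constructor
    · rintro ⟨v, hv, rfl⟩
      rw [← key]
      have : Submodule.span ℤ (Set.range K) ≤ LinearMap.ker (Matrix.mulVecLin S) :=
        Submodule.span_le.2 (by rintro _ ⟨j, rfl⟩; exact h0 j)
      exact this hv
    · intro hx
      have hx' := hsp x
      rw [← Fintype.range_linearCombination] at hx'
      obtain ⟨v, rfl⟩ := hx'
      exact ⟨v, hgen v ((key v).2 hx), rfl⟩

end Pool.Agent.MP_993212_an.H95
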